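import Mathlib

namespace Pool.Agent.MP_ea150c_mp.H48

open MeasureTheory Complex Real

/-- mean-square bound for the coefficients of a weight-2 cusp form of period 1 -/
theorem mean_square {G : Subgroup (GL (Fin 2) ℝ)} [G.IsArithmetic]
    (hG : (1 : ℝ) ∈ G.strictPeriods) (f : CuspForm G 2) :
    ∃ D : ℝ, 0 ≤ D ∧ ∀ X : ℕ, 0 < X → ∀ s : Finset ℕ, (∀ n ∈ s, n ≤ X) →
      ∑ n ∈ s, ‖(UpperHalfPlane.qExpansion 1 f).coeff n‖ ^ 2 ≤ D * (X : ℝ) ^ 2 := by
  obtain ⟨C, hC⟩ := CuspFormClass.exists_bound f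
  refine ⟨Real.exp (2 * π) ^ 2 * C ^ 2, by positivity, fun X hX s hs => ?_⟩
  have hXr : (0 : ℝ) < X := by exact_mod_cast hX
  set t : ℝ := 1 / X with ht
  have htp : 0 < t := by positivity
  let F : ℝ → ℂ := fun u => f ⟨u + t * I, by simpa using htp⟩
  have hFc : Continuous F := by
    have h1 : Continuous (f : UpperHalfPlane → ℂ) := (ModularFormClass.holo f).continuous
    refine h1.comp ?_
    refine Continuous.upperHalfPlaneMk (by fun_prop) _
  have hFb : ∀ u, ‖F u‖ ≤ |C| * X := by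
    intro u
    have h := hC ⟨u + t * I, by simpa using htp⟩
    have him : (⟨u + t * I, by simpa using htp⟩ : UpperHalfPlane).im = t := by
      simp [← UpperHalfPlane.coe_im]
    rw [him] at h
    have e : ((2 : ℤ) : ℝ) / 2 = 1 := by norm_num
    rw [e, Real.rpow_one] at h
    refine h.trans ?_
    rw [ht, div_div_eq_mul_div, div_one]
    exact mul_le_mul_of_nonneg_right (le_abs_self C) hXr.le
  have hL2 : MemLp F 2 (volume.restrict (Set.Ioc (0 : ℝ) 1)) :=
    MemLp.of_bound hFc.aestronglyMeasurable (|C| * X) (Filter.Eventually.of_forall hFb)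
  have hP := hasSum_sq_fourierCoeffOn (zero_lt_one : (0 : ℝ) < 1) hL2
  have hI : ((1 : ℝ) - 0)⁻¹ • ∫ x in (0 : ℝ)..1, ‖F x‖ ^ 2 ≤ C ^ 2 * (X : ℝ) ^ 2 := by
    have : ∫ x in (0 : ℝ)..1, ‖F x‖ ^ 2 ≤ ∫ _x in (0 : ℝ)..1, C ^ 2 * (X : ℝ) ^ 2 := by
      refine intervalIntegral.integral_mono zero_le_one ?_ ?_ fun x => ?_
      · exact (hFc.norm.pow 2).intervalIntegrable _ _
      · exact continuous_const.intervalIntegrable _ _
      · have := pow_le_pow_left₀ (norm_nonneg _) (hFb x) 2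
        simpa [mul_pow] using this
    simpa using this
  have hcoef : ∀ n : ℕ, n ≤ X → ‖(UpperHalfPlane.qExpansion 1 f).coeff n‖ ≤
      Real.exp (2 * π) * ‖fourierCoeffOn (zero_lt_one : (0 : ℝ) < 1) F n‖ := by
    intro n hn
    rw [ModularFormClass.qExpansion_coeff_eq_intervalIntegral f one_pos hG n htp,
      fourierCoeffOn_eq_integral]
    have e : ∀ u : ℝ, 1 / Function.Periodic.qParam 1 (u + t * I) ^ n * F u =
        (Real.exp (2 * π * (n * t)) : ℂ) *
          (fourier (-(n : ℤ)) (u : AddCircle ((1 : ℝ) - 0)) • F u) := by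
      intro u
      rw [fourier_coe_apply, smul_eq_mul, ← mul_assoc]
      congr 1
      rw [Function.Periodic.qParam, ← Complex.exp_nat_mul, one_div, ← Complex.exp_neg,
        Complex.ofReal_exp, ← Complex.exp_add]
      congr 1
      push_cast
      have := I_sq
      grind
    have e2 : (∫ u in (0 : ℝ)..1, 1 / Function.Periodic.qParam 1 (u + t * I) ^ n * F u) =
        (Real.exp (2 * π * (n * t)) : ℂ) *
          ∫ u in (0 : ℝ)..1, fourier (-(n : ℤ)) (u : AddCircle ((1 : ℝ) - 0)) • F u := by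
      rw [← intervalIntegral.integral_const_mul]
      exact intervalIntegral.integral_congr fun u _ => e u
    have e3 : (1 : ℝ) / (1 - 0) = 1 := by norm_num
    erw [e2]
    rw [e3, one_smul]
    simp only [Complex.ofReal_one, div_one, one_mul, norm_mul, Complex.norm_real,
      Real.norm_eq_abs, Real.abs_exp]
    refine mul_le_mul_of_nonneg_right (Real.exp_le_exp.2 ?_) (norm_nonneg _)
    have : (n : ℝ) * t ≤ 1 := by
      rw [ht, mul_one_div, div_le_one hXr]; exact_mod_cast hn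
    nlinarith [Real.pi_pos]
  calc ∑ n ∈ s, ‖(UpperHalfPlane.qExpansion 1 f).coeff n‖ ^ 2
      ≤ ∑ n ∈ s, Real.exp (2 * π) ^ 2 *
          ‖fourierCoeffOn (zero_lt_one : (0 : ℝ) < 1) F n‖ ^ 2 := by
        refine Finset.sum_le_sum fun n hn => ?_
        rw [← mul_pow]
        exact pow_le_pow_left₀ (norm_nonneg _) (hcoef n (hs n hn)) 2
    _ = Real.exp (2 * π) ^ 2 * ∑ i ∈ s.map (Nat.castEmbedding (R := ℤ)),
          ‖fourierCoeffOn (zero_lt_one : (0 : ℝ) < 1) F i‖ ^ 2 := by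
        rw [Finset.sum_map, Finset.mul_sum]; rfl
    _ ≤ Real.exp (2 * π) ^ 2 * (C ^ 2 * (X : ℝ) ^ 2) := by
        refine mul_le_mul_of_nonneg_left ?_ (by positivity)
        exact (sum_le_hasSum _ (fun i _ => by positivity) hP).trans hI
    _ = _ := by ring

/-- a sequence with mean square `O(X^2)` is smaller than `p - 1` at infinitely many primes -/
theorem primes_small (a : ℕ → ℝ) (D : ℝ) (hD : 0 ≤ D)
    (h : ∀ X : ℕ, 0 < X → ∀ s : Finset ℕ, (∀ n ∈ s, n ≤ X) → ∑ n ∈ s, a n ^ 2 ≤ D * (X : ℝ) ^ 2)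
    (B : ℕ) : ∃ p : ℕ, p.Prime ∧ B < p ∧ a p < (p : ℝ) - 1 := by
  by_contra hne
  push Not at hne
  classical
  let g : ℕ → ℝ := fun n => if n.Prime ∧ B < n then 1 / (n : ℝ) else 0
  have hg0 : ∀ n, 0 ≤ g n := fun n => by
    simp only [g]; split_ifs <;> positivity
  have hblock : ∀ j : ℕ, ∑ n ∈ Finset.Ico (2 ^ j) (2 ^ (j + 1)), g n ≤ 16 * D / 2 ^ j := by
    intro j
    have h2 : (0 : ℝ) < 2 ^ j := by positivity
    have h1 := h (2 ^ (j + 1)) (by positivity) (Finset.Ico (2 ^ j) (2 ^ (j + 1)))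
      (fun n hn => (Finset.mem_Ico.1 hn).2.le)
    have h3 : ∀ n ∈ Finset.Ico (2 ^ j) (2 ^ (j + 1)), g n ≤ 4 / (2 ^ j) ^ 3 * a n ^ 2 := by
      intro n hn
      simp only [g]
      split_ifs with hp
      · have hn1 : ((2 : ℝ) ^ j) ≤ n := by exact_mod_cast (Finset.mem_Ico.1 hn).1
        have hn2 : (2 : ℝ) ≤ n := by exact_mod_cast hp.1.two_le
        have ha := hne n hp.1 hp.2
        have ha2 : (2 : ℝ) ^ j / 2 ≤ a n := by linarith
        have ha3 : ((2 : ℝ) ^ j / 2) ^ 2 ≤ a n ^ 2 := pow_le_pow_left₀ (by positivity) ha2 2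
        calc 1 / (n : ℝ) ≤ 1 / 2 ^ j := one_div_le_one_div_of_le h2 hn1
          _ = 4 / (2 ^ j) ^ 3 * ((2 : ℝ) ^ j / 2) ^ 2 := by field_simp; norm_num
          _ ≤ _ := mul_le_mul_of_nonneg_left ha3 (by positivity)
      · positivity
    calc _ ≤ ∑ n ∈ Finset.Ico (2 ^ j) (2 ^ (j + 1)), 4 / (2 ^ j) ^ 3 * a n ^ 2 :=
          Finset.sum_le_sum h3
      _ = 4 / (2 ^ j) ^ 3 * ∑ n ∈ Finset.Ico (2 ^ j) (2 ^ (j + 1)), a n ^ 2 := by
          rw [Finset.mul_sum]
      _ ≤ 4 / (2 ^ j) ^ 3 * (D * (((2 ^ (j + 1) : ℕ)) : ℝ) ^ 2) :=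
          mul_le_mul_of_nonneg_left h1 (by positivity)
      _ = 16 * D / 2 ^ j := by push_cast; field_simp; ring
  have hsum : ∀ j : ℕ, ∑ n ∈ Finset.range (2 ^ j), g n ≤ 32 * D - 32 * D / 2 ^ j := by
    intro j
    induction j with
    | zero => simp [g]
    | succ j ih =>
      have hle : 2 ^ j ≤ 2 ^ (j + 1) := Nat.pow_le_pow_right (by norm_num) (Nat.le_succ j)
      rw [← Finset.sum_range_add_sum_Ico _ hle]
      have := hblock j
      have e : 32 * D / 2 ^ (j + 1) = 32 * D / 2 ^ j - 16 * D / 2 ^ j := by field_simp; ring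
      rw [e]; linarith
  have hgs : Summable g := by
    refine summable_of_sum_range_le hg0 (c := 32 * D) fun n => ?_
    have h1 : Finset.range n ⊆ Finset.range (2 ^ n) :=
      Finset.range_mono (Nat.lt_two_pow_self).le
    have h2 := Finset.sum_le_sum_of_subset_of_nonneg h1 (fun i _ _ => hg0 i)
    have h3 : 0 ≤ 32 * D / 2 ^ n := by positivity
    linarith [hsum n]
  apply not_summable_one_div_on_primes
  rw [← summable_nat_add_iff (B + 1)] at hgs ⊢
  refine hgs.congr fun n => ?_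
  by_cases hp : (n + (B + 1)).Prime
  · rw [Set.indicator_of_mem (by exact hp)]
    simp only [g]
    rw [if_pos ⟨hp, by omega⟩]
  · rw [Set.indicator_of_notMem (by exact hp)]
    simp only [g]
    rw [if_neg (fun hh => hp hh.1)]

theorem small_coeff {G : Subgroup (GL (Fin 2) ℝ)} [G.IsArithmetic]
    (hG : (1 : ℝ) ∈ G.strictPeriods) (f : CuspForm G 2) (B : ℕ) :
    ∃ p : ℕ, p.Prime ∧ B < p ∧ ‖(UpperHalfPlane.qExpansion 1 f).coeff p‖ < (p : ℝ) - 1 := by
  obtain ⟨D, hD, h⟩ := mean_square hG f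
  exact primes_small (fun n => ‖(UpperHalfPlane.qExpansion 1 f).coeff n‖) D hD h B

end Pool.Agent.MP_ea150c_mp.H48
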